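import Pool.Agent.Helper183.Geo.Two
import Pool.Agent.Results.MP_28492a_gt.HadwigerCriterion

/-!
# Arbitrary pieces against geometric bodies: arbitrarily many classes, inside every open set

For `n = 1` and `n = 2`, every nonempty open set `U` of `ℝⁿ` and every `m` there are `m` geometric
bodies inside `U` which are pairwise equidecomposable with arbitrary pieces, and one real valued,
finitely additive, isometry invariant function of geometric bodies that takes `m` different values
on them. Hence no two of them are equidecomposable as geometric bodies, not even after taking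
`k` copies of both and adding bodies that are equidecomposable with each other.
-/

set_option autoImplicit false

open MeasureTheory Set Filter Topology

namespace Pool.Agent.Results.MP_02f2ca_gt.SeparatedFamilies

/-- The space `ℝⁿ`. -/
abbrev Rn (n : ℕ) : Type := EuclideanSpace ℝ (Fin n)

/-- A geometric body of `ℝⁿ`: a bounded, regular open, Jordan measurable set. The boundary of a
bounded set is compact, so it has Jordan measure zero exactly when it has Lebesgue measure zero. -/
def GeometricBody {n : ℕ} (A : Set (Rn n)) : Prop :=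
  Bornology.IsBounded A ∧ interior (closure A) = A ∧ volume (frontier A) = 0

/-- The join of finitely many sets: the interior of the closure of the union. -/
def Join {n k : ℕ} (P : Fin k → Set (Rn n)) : Set (Rn n) :=
  interior (closure (⋃ i, P i))

/-- Equidecomposable with arbitrary pieces, using all isometries of `ℝⁿ`. -/
def EquidecArbitrary {n : ℕ} (A B : Set (Rn n)) : Prop :=
  ∃ (k : ℕ) (P : Fin k → Set (Rn n)) (g : Fin k → Rn n ≃ᵢ Rn n),
    (∀ i j, i ≠ j → Disjoint (P i) (P j)) ∧ A = ⋃ i, P i ∧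
    (∀ i j, i ≠ j → Disjoint (g i '' P i) (g j '' P j)) ∧ B = ⋃ i, g i '' P i

/-- Equidecomposable as geometric bodies, using all isometries of `ℝⁿ`. -/
def EquidecBodies {n : ℕ} (A B : Set (Rn n)) : Prop :=
  ∃ (k : ℕ) (P : Fin k → Set (Rn n)) (g : Fin k → Rn n ≃ᵢ Rn n),
    (∀ i, GeometricBody (P i)) ∧
    (∀ i j, i ≠ j → Disjoint (P i) (P j)) ∧ A = Join P ∧
    (∀ i j, i ≠ j → Disjoint (g i '' P i) (g j '' P j)) ∧ B = Join fun i => g i '' P i

/-- `Φ` is an invariant: isometries do not change it, and it is additive for the join of two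
disjoint bodies. -/
def IsInvariant {n : ℕ} (Φ : Set (Rn n) → ℝ) : Prop :=
  (∀ A, GeometricBody A → ∀ g : Rn n ≃ᵢ Rn n, Φ (g '' A) = Φ A) ∧
  ∀ A B, GeometricBody A → GeometricBody B → Disjoint A B →
    Φ (interior (closure (A ∪ B))) = Φ A + Φ B

/-- `C` is a join of `k` isometric copies of `A` and of the body `X`, all of these being pairwise
disjoint, i.e. a representative of `k A + X`. -/
def IsSum {n : ℕ} (k : ℕ) (A X C : Set (Rn n)) : Prop :=
  ∃ φ : Fin k → Rn n ≃ᵢ Rn n, (∀ i j, i ≠ j → Disjoint (φ i '' A) (φ j '' A)) ∧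
    (∀ i, Disjoint (φ i '' A) X) ∧ C = interior (closure ((⋃ i, φ i '' A) ∪ X))

/-- `A` and `B` are stably different: for all `k ≥ 1` and all bodies `X`, `Y` which are
equidecomposable as geometric bodies, `k A + X` and `k B + Y` are not equidecomposable as geometric
bodies. -/
def StablyDifferent {n : ℕ} (A B : Set (Rn n)) : Prop :=
  ∀ k : ℕ, 1 ≤ k → ∀ X Y C D : Set (Rn n), GeometricBody X → GeometricBody Y →
    EquidecBodies X Y → IsSum k A X C → IsSum k B Y D → ¬ EquidecBodies C D

section basics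

variable {n : ℕ}

abbrev E (n : ℕ) : Type := EuclideanSpace ℝ (Fin n)

open Pool.Agent.Results.MP_28492a_gt in
theorem equidec_iff {A B : Set (E n)} :
    EquidecBodies A B ↔ HadwigerCriterion.Equidec (⊤ : Subgroup (E n ≃ᵢ E n)) A B := by
  constructor
  · rintro ⟨k, P, g, h1, h2, h3, h4, h5⟩
    exact ⟨k, P, g, fun _ => trivial, h1, h2, h3, h4, h5⟩
  · rintro ⟨k, P, g, -, h1, h2, h3, h4, h5⟩
    exact ⟨k, P, g, h1, h2, h3, h4, h5⟩

open Pool.Agent.Results.MP_28492a_gt in
theorem inv_iff {Φ : Set (E n) → ℝ} :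
    IsInvariant Φ ↔ HadwigerCriterion.IsInvariant (⊤ : Subgroup (E n ≃ᵢ E n)) Φ := by
  constructor
  · rintro ⟨h1, h2⟩
    exact ⟨fun A hA g _ => h1 A hA g, h2⟩
  · rintro ⟨h1, h2⟩
    exact ⟨fun A hA g => h1 A hA g trivial, h2⟩

theorem arb_of_fintype {ι : Type} [Fintype ι] {A B : Set (E n)} (P : ι → Set (E n))
    (g : ι → E n ≃ᵢ E n) (h1 : ∀ i j, i ≠ j → Disjoint (P i) (P j)) (h2 : A = ⋃ i, P i)
    (h3 : ∀ i j, i ≠ j → Disjoint (g i '' P i) (g j '' P j)) (h4 : B = ⋃ i, g i '' P i) :
    EquidecArbitrary A B := by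
  have e := Fintype.equivFin ι
  refine ⟨Fintype.card ι, fun i => P (e.symm i), fun i => g (e.symm i), ?_, ?_, ?_, ?_⟩
  · intro i j hij
    exact h1 _ _ fun h => hij (e.symm.injective h)
  · rw [h2]
    exact (e.symm.surjective.iUnion_comp P).symm
  · intro i j hij
    exact h3 _ _ fun h => hij (e.symm.injective h)
  · rw [h4]
    exact (e.symm.surjective.iUnion_comp fun i => g i '' P i).symm

theorem arb_refl (A : Set (E n)) : EquidecArbitrary A A := by
  refine arb_of_fintype (ι := Unit) (fun _ => A) (fun _ => IsometryEquiv.refl _) ?_ ?_ ?_ ?_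
  · intro i j hij
    exact absurd (Subsingleton.elim i j) hij
  · exact (iUnion_const A).symm
  · intro i j hij
    exact absurd (Subsingleton.elim i j) hij
  · rw [iUnion_const]
    ext x
    constructor
    · intro hx
      exact ⟨x, hx, rfl⟩
    · rintro ⟨y, hy, rfl⟩
      exact hy

theorem arb_symm {A B : Set (E n)} (h : EquidecArbitrary A B) : EquidecArbitrary B A := by
  obtain ⟨k, P, g, h1, h2, h3, h4⟩ := h
  have e : ∀ i, (g i).symm '' (g i '' P i) = P i := by
    intro i
    rw [image_image]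
    simp
  refine ⟨k, fun i => g i '' P i, fun i => (g i).symm, h3, h4, ?_, ?_⟩
  · intro i j hij
    simp only [e]
    exact h1 i j hij
  · simp only [e]
    exact h2

/-- unions of families in separate places -/
theorem arb_union {m : ℕ} {S T : Fin m → Set (E n)} (t : Fin m → E n ≃ᵢ E n)
    (h : ∀ s, EquidecArbitrary (S s) (T s))
    (hS : ∀ s s', s ≠ s' → Disjoint (t s '' S s) (t s' '' S s'))
    (hT : ∀ s s', s ≠ s' → Disjoint (t s '' T s) (t s' '' T s')) :
    EquidecArbitrary (⋃ s, t s '' S s) (⋃ s, t s '' T s) := by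
  choose k P g h1 h2 h3 h4 using h
  have e : ∀ (s : Fin m) (i : Fin (k s)),
      (((t s).symm.trans (g s i)).trans (t s)) '' (t s '' P s i) = t s '' (g s i '' P s i) := by
    intro s i
    rw [image_image, image_image]
    apply image_congr
    intro x _
    simp
  refine arb_of_fintype (ι := Σ s, Fin (k s)) (fun p => t p.1 '' P p.1 p.2)
    (fun p => ((t p.1).symm.trans (g p.1 p.2)).trans (t p.1)) ?_ ?_ ?_ ?_
  · rintro ⟨s, i⟩ ⟨s', j⟩ hij
    by_cases hs : s = s'
    · subst hs
      exact (disjoint_image_iff (t s).injective).2 (h1 s i j fun h => hij (by rw [h]))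
    · refine (hS s s' hs).mono (image_mono ?_) (image_mono ?_)
      · rw [h2 s]
        exact subset_iUnion _ i
      · rw [h2 s']
        exact subset_iUnion _ j
  · rw [iUnion_sigma]
    apply iUnion_congr
    intro s
    conv_lhs => rw [h2 s]
    exact image_iUnion
  · rintro ⟨s, i⟩ ⟨s', j⟩ hij
    simp only [e]
    by_cases hs : s = s'
    · subst hs
      exact (disjoint_image_iff (t s).injective).2 (h3 s i j fun h => hij (by rw [h]))
    · refine (hT s s' hs).mono (image_mono ?_) (image_mono ?_)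
      · rw [h4 s]
        exact subset_iUnion (fun i => g s i '' P s i) i
      · rw [h4 s']
        exact subset_iUnion (fun i => g s' i '' P s' i) j
  · simp only [e]
    rw [iUnion_sigma]
    apply iUnion_congr
    intro s
    conv_lhs => rw [h4 s]
    exact image_iUnion

/-- a union of regular open sets with disjoint closures is regular open -/
theorem join_eq {m : ℕ} {P : Fin m → Set (E n)} (hP : ∀ i, interior (closure (P i)) = P i)
    (hd : ∀ i j, i ≠ j → Disjoint (closure (P i)) (closure (P j))) :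
    interior (closure (⋃ i, P i)) = ⋃ i, P i := by
  have ho : ∀ i, IsOpen (P i) := fun i => by
    rw [← hP i]
    exact isOpen_interior
  apply subset_antisymm
  · intro x hx
    have h1 : x ∈ closure (⋃ i, P i) := interior_subset hx
    rw [closure_iUnion_of_finite] at h1 hx
    obtain ⟨i, hi⟩ := mem_iUnion.1 h1
    refine mem_iUnion.2 ⟨i, ?_⟩
    rw [← hP i]
    have hc : IsClosed (⋃ j ∈ {j : Fin m | j ≠ i}, closure (P j)) :=
      (Set.toFinite {j : Fin m | j ≠ i}).isClosed_biUnion fun j _ => isClosed_closure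
    have hx2 : x ∈ interior (⋃ j, closure (P j)) ∩ (⋃ j ∈ {j : Fin m | j ≠ i}, closure (P j))ᶜ := by
      refine ⟨hx, fun h => ?_⟩
      obtain ⟨j, hj, hxj⟩ := mem_iUnion₂.1 h
      exact Set.disjoint_left.1 (hd j i hj) hxj hi
    refine mem_interior.2 ⟨_, ?_, isOpen_interior.inter hc.isOpen_compl, hx2⟩
    rintro y ⟨hy1, hy2⟩
    obtain ⟨j, hj⟩ := mem_iUnion.1 (interior_subset hy1)
    by_cases hji : j = i
    · rw [← hji]
      exact hj
    · exact absurd (mem_iUnion₂.2 ⟨j, hji, hj⟩) hy2
  · exact interior_maximal subset_closure (isOpen_iUnion ho)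

end basics

noncomputable section similar

variable {n : ℕ} (c : ℝ) (hc : c ≠ 0) (v : E n)

/-- the homothety `x ↦ c x + v` -/
def hom : E n ≃ₜ E n := (Homeomorph.smulOfNeZero c hc).trans (Homeomorph.addRight v)

theorem hom_apply (x : E n) : hom c hc v x = c • x + v := rfl

theorem hom_dist (x y : E n) : dist (hom c hc v x) (hom c hc v y) = |c| * dist x y := by
  rw [hom_apply, hom_apply, dist_add_right, dist_smul₀, Real.norm_eq_abs]

/-- the conjugate of an isometry -/
def conj (g : E n ≃ᵢ E n) : E n ≃ᵢ E n where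
  toEquiv := ((hom c hc v).symm.toEquiv.trans g.toEquiv).trans (hom c hc v).toEquiv
  isometry_toFun := by
    apply Isometry.of_dist_eq
    intro x y
    change dist (hom c hc v (g ((hom c hc v).symm x))) (hom c hc v (g ((hom c hc v).symm y))) = _
    rw [hom_dist, g.dist_eq, ← hom_dist c hc v, Homeomorph.apply_symm_apply,
      Homeomorph.apply_symm_apply]

theorem conj_image (g : E n ≃ᵢ E n) (S : Set (E n)) :
    conj c hc v g '' (hom c hc v '' S) = hom c hc v '' (g '' S) := by
  rw [image_image, image_image]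
  apply image_congr
  intro x _
  change hom c hc v (g ((hom c hc v).symm (hom c hc v x))) = _
  rw [Homeomorph.symm_apply_apply]

theorem hom_join (S : Set (E n)) :
    hom c hc v '' interior (closure S) = interior (closure (hom c hc v '' S)) := by
  rw [← (hom c hc v).image_closure, (hom c hc v).image_interior]

open scoped Pointwise in
theorem hom_null {N : Set (E n)} (hN : volume N = 0) : volume (hom c hc v '' N) = 0 := by
  have h1 : hom c hc v '' N = (fun x => x + v) '' (c • N) := by
    rw [← image_smul, image_image]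
    rfl
  rw [h1, image_add_right, measure_preimage_add_right, Measure.addHaar_smul, hN, mul_zero]

theorem hom_body {A : Set (E n)} (h : GeometricBody A) : GeometricBody (hom c hc v '' A) := by
  obtain ⟨h1, h2, h3⟩ := h
  refine ⟨?_, ?_, ?_⟩
  · obtain ⟨R, hR⟩ := h1.exists_norm_le
    refine isBounded_iff_forall_norm_le.2 ⟨|c| * R + ‖v‖, ?_⟩
    rintro _ ⟨x, hx, rfl⟩
    rw [hom_apply]
    refine (norm_add_le _ _).trans ?_
    rw [norm_smul, Real.norm_eq_abs]
    have := mul_le_mul_of_nonneg_left (hR x hx) (abs_nonneg c)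
    linarith
  · rw [← hom_join, h2]
  · rw [← (hom c hc v).image_frontier]
    exact hom_null c hc v h3

theorem hom_arb {A B : Set (E n)} (h : EquidecArbitrary A B) :
    EquidecArbitrary (hom c hc v '' A) (hom c hc v '' B) := by
  obtain ⟨k, P, g, h1, h2, h3, h4⟩ := h
  refine ⟨k, fun i => hom c hc v '' P i, fun i => conj c hc v (g i), ?_, ?_, ?_, ?_⟩
  · intro i j hij
    exact (disjoint_image_iff (hom c hc v).injective).2 (h1 i j hij)
  · rw [h2, image_iUnion]
  · intro i j hij
    simp only [conj_image]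
    exact (disjoint_image_iff (hom c hc v).injective).2 (h3 i j hij)
  · simp only [conj_image]
    rw [h4, image_iUnion]

theorem hom_inv {Φ : Set (E n) → ℝ} (h : IsInvariant Φ) :
    IsInvariant fun S => Φ (hom c hc v '' S) := by
  refine ⟨fun A hA g => ?_, fun A B hA hB hd => ?_⟩
  · beta_reduce
    rw [← conj_image]
    exact h.1 _ (hom_body c hc v hA) _
  · beta_reduce
    rw [hom_join, image_union]
    exact h.2 _ _ (hom_body c hc v hA) (hom_body c hc v hB)
      ((disjoint_image_iff (hom c hc v).injective).2 hd)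

end similar

section main

variable {n : ℕ}

open Pool.Agent.Results.MP_28492a_gt in
theorem ball_body {R : ℝ} (hR : 0 < R) : GeometricBody (Metric.ball (0 : E n) R) := by
  refine ⟨Metric.isBounded_ball, ?_, ?_⟩
  · rw [closure_ball _ hR.ne', interior_closedBall _ hR.ne']
  rw [frontier_ball _ hR.ne']
  exact Measure.addHaar_sphere_of_ne_zero _ _ hR.ne'

open Pool.Agent.Results.MP_28492a_gt in
theorem family (j0 : Fin n) {A B : Set (E n)} (hA : GeometricBody A) (hB : GeometricBody B)
    (hAB : EquidecArbitrary A B) {Φ : Set (E n) → ℝ} (hΦ : IsInvariant Φ) (hne : Φ A ≠ Φ B)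
    (m : ℕ) : ∃ C : Fin m → Set (E n), (∀ i, GeometricBody (C i)) ∧
      (∀ i j, EquidecArbitrary (C i) (C j)) ∧ ∀ i j, i ≠ j → Φ (C i) ≠ Φ (C j) := by
  classical
  obtain ⟨R1, hR1⟩ := hA.1.closure.exists_norm_le
  obtain ⟨R2, hR2⟩ := hB.1.closure.exists_norm_le
  set R : ℝ := max (max R1 R2) 0 + 1 with hRdef
  have hR0 : 0 < R := by
    have := le_max_right (max R1 R2) (0 : ℝ)
    linarith
  have hR1' : R1 < R := by
    have h1 := le_max_left (max R1 R2) (0 : ℝ)
    have h2 := le_max_left R1 R2
    linarith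
  have hR2' : R2 < R := by
    have h1 := le_max_left (max R1 R2) (0 : ℝ)
    have h2 := le_max_right R1 R2
    linarith
  obtain ⟨v, hv⟩ := HadwigerCriterion.exists_disjoint j0
    (P := fun _ : Fin m => Metric.ball (0 : E n) R) (fun _ => ball_body hR0)
  set t : Fin m → E n ≃ᵢ E n := fun s => IsometryEquiv.addRight (v s) with ht
  set S : Fin m → Fin m → Set (E n) := fun i s => if s < i then A else B with hS
  have hSb : ∀ i s, GeometricBody (S i s) := by
    intro i s
    simp only [hS]
    split_ifs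
    exacts [hA, hB]
  have hSK : ∀ i s, closure (S i s) ⊆ Metric.ball (0 : E n) R := by
    intro i s x hx
    rw [mem_ball_zero_iff]
    simp only [hS] at hx
    split_ifs at hx
    · exact (hR1 x hx).trans_lt hR1'
    · exact (hR2 x hx).trans_lt hR2'
  have htS : ∀ i s, closure (t s '' S i s) ⊆ t s '' Metric.ball (0 : E n) R := by
    intro i s
    have h1 : closure (t s '' S i s) = t s '' closure (S i s) :=
      ((t s).toHomeomorph.image_closure _).symm
    rw [h1]
    exact image_mono (hSK i s)
  have hdc : ∀ i s s', s ≠ s' →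
      Disjoint (closure (t s '' S i s)) (closure (t s' '' S i s')) := fun i s s' hss =>
    (hv s s' hss).mono (htS i s) (htS i s')
  have hd : ∀ i s s', s ≠ s' → Disjoint (t s '' S i s) (t s' '' S i s') := fun i s s' hss =>
    (hdc i s s' hss).mono subset_closure subset_closure
  have htb : ∀ i s, GeometricBody (t s '' S i s) := fun i s =>
    HadwigerCriterion.body_image (hSb i s) (t s)
  have hJ : ∀ i, HadwigerCriterion.Join (fun s => t s '' S i s) = ⋃ s, t s '' S i s := fun i =>
    join_eq (fun s => (htb i s).2.1) (hdc i)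
  refine ⟨fun i => ⋃ s, t s '' S i s, fun i => ?_, fun i j => ?_, ?_⟩
  · beta_reduce
    rw [← hJ i]
    exact HadwigerCriterion.body_join (htb i)
  · refine arb_union t (fun s => ?_) (hd i) (hd j)
    simp only [hS]
    split_ifs
    exacts [arb_refl A, hAB, arb_symm hAB, arb_refl B]
  · have hval : ∀ i : Fin m, Φ (⋃ s, t s '' S i s) = m * Φ B + (i : ℕ) * (Φ A - Φ B) := by
      intro i
      rw [← hJ i, HadwigerCriterion.inv_join (inv_iff.1 hΦ) (htb i) (hd i)]
      have h1 : ∀ s, Φ (t s '' S i s) = Φ B + if s < i then Φ A - Φ B else 0 := by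
        intro s
        rw [hΦ.1 _ (hSb i s)]
        simp only [hS]
        split_ifs <;> ring
      rw [Finset.sum_congr rfl fun s _ => h1 s, Finset.sum_add_distrib, Finset.sum_const,
        Finset.card_univ, Fintype.card_fin, nsmul_eq_mul, Finset.sum_ite, Finset.sum_const,
        Finset.sum_const_zero, add_zero, nsmul_eq_mul]
      have h2 : (Finset.univ.filter fun s : Fin m => s < i).card = (i : ℕ) := by
        have h3 : (Finset.univ.filter fun s : Fin m => s < i) = Finset.Iio i := by
          ext s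
          simp only [Finset.mem_filter, Finset.mem_univ, true_and, Finset.mem_Iio]
        rw [h3, Fin.card_Iio]
      rw [h2]
    intro i j hij h
    beta_reduce at h
    rw [hval, hval, add_right_inj] at h
    have h3 := mul_right_cancel₀ (sub_ne_zero.2 hne) h
    exact hij (Fin.ext (by exact_mod_cast h3))

open Pool.Agent.Results.MP_28492a_gt in
theorem stable_of_inv (hn : 1 ≤ n) {A B : Set (E n)} (hA : GeometricBody A) (hB : GeometricBody B)
    {Φ : Set (E n) → ℝ} (hΦ : IsInvariant Φ) (hne : Φ A ≠ Φ B) : StablyDifferent A B := by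
  intro k hk X Y C D hX hY hXY hC hD hCD
  have hh := HadwigerCriterion.result n hn ⊤ fun _ => trivial
  obtain ⟨φ, h1, h2, h3⟩ := hC
  obtain ⟨ψ, h4, h5, h6⟩ := hD
  have h7 := hh.2.1 k hk A B X Y C D hA hB hX hY ⟨φ, fun _ => trivial, h1, h2, h3⟩
    ⟨ψ, fun _ => trivial, h4, h5, h6⟩ (equidec_iff.1 hXY) (equidec_iff.1 hCD)
  exact hne (HadwigerCriterion.inv_of_equidec (inv_iff.1 hΦ) h7)

open Pool.Agent.Results.MP_28492a_gt in
theorem exists_inv (hn : 1 ≤ n) {A B : Set (E n)} (hA : GeometricBody A) (hB : GeometricBody B)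
    (h : ¬ EquidecBodies A B) : ∃ Φ : Set (E n) → ℝ, IsInvariant Φ ∧ Φ A ≠ Φ B := by
  by_contra hc
  push Not at hc
  exact h (equidec_iff.2 (((HadwigerCriterion.result n hn ⊤ fun _ => trivial).1 A B hA hB).2
    fun Φ hΦ => hc Φ (inv_iff.2 hΦ)))

/-- the conclusion for one dimension, from one pair of bodies -/
theorem of_pair (hn : 1 ≤ n) {A B : Set (E n)} (hA : GeometricBody A) (hB : GeometricBody B)
    (hAB : EquidecArbitrary A B) (h : ¬ EquidecBodies A B) (U : Set (E n)) (hU : IsOpen U)
    (hne : U.Nonempty) (m : ℕ) :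
    ∃ C : Fin m → Set (E n), (∀ i, GeometricBody (C i) ∧ C i ⊆ U) ∧
      (∀ i j, EquidecArbitrary (C i) (C j)) ∧
      (∃ Φ : Set (E n) → ℝ, IsInvariant Φ ∧ ∀ i j, i ≠ j → Φ (C i) ≠ Φ (C j)) ∧
      ∀ i j, i ≠ j → ¬ EquidecBodies (C i) (C j) ∧ StablyDifferent (C i) (C j) := by
  obtain ⟨Φ, hΦ, hΦne⟩ := exists_inv hn hA hB h
  obtain ⟨C, h1, h2, h3⟩ := family ⟨0, hn⟩ hA hB hAB hΦ hΦne m
  obtain ⟨x0, hx0⟩ := hne
  obtain ⟨r, hr, hball⟩ := Metric.isOpen_iff.1 hU x0 hx0
  choose R hR using fun i => (h1 i).1.exists_norm_le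
  obtain ⟨M, hM0, hM⟩ : ∃ M : ℝ, 0 ≤ M ∧ ∀ i, ∀ x ∈ C i, ‖x‖ ≤ M :=
    ⟨∑ i, |R i|, Finset.sum_nonneg fun i _ => abs_nonneg _, fun i x hx =>
      ((hR i x hx).trans (le_abs_self _)).trans (Finset.single_le_sum (f := fun i => |R i|)
        (fun i _ => abs_nonneg _) (Finset.mem_univ i))⟩
  set c : ℝ := r / (M + 1) with hcdef
  have hc0 : 0 < c := by positivity
  have hc : c ≠ 0 := hc0.ne'
  have hci : c⁻¹ ≠ 0 := inv_ne_zero hc
  have hinv : ∀ S : Set (E n), hom c⁻¹ hci (-(c⁻¹ • x0)) '' (hom c hc x0 '' S) = S := by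
    intro S
    rw [image_image]
    have : ∀ x : E n, hom c⁻¹ hci (-(c⁻¹ • x0)) (hom c hc x0 x) = x := by
      intro x
      rw [hom_apply, hom_apply, smul_add, smul_smul, inv_mul_cancel₀ hc, one_smul]
      abel
    simp only [this, image_id']
  have hb : ∀ i, GeometricBody (hom c hc x0 '' C i) := fun i => hom_body c hc x0 (h1 i)
  have hΨ := hom_inv c⁻¹ hci (-(c⁻¹ • x0)) hΦ
  have hΨne : ∀ i j, i ≠ j → Φ (hom c⁻¹ hci (-(c⁻¹ • x0)) '' (hom c hc x0 '' C i)) ≠
      Φ (hom c⁻¹ hci (-(c⁻¹ • x0)) '' (hom c hc x0 '' C j)) := by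
    intro i j hij
    rw [hinv, hinv]
    exact h3 i j hij
  refine ⟨fun i => hom c hc x0 '' C i, fun i => ⟨hb i, ?_⟩, fun i j => hom_arb c hc x0 (h2 i j),
    ⟨_, hΨ, hΨne⟩, fun i j hij => ⟨fun hE => ?_, stable_of_inv hn (hb i) (hb j) hΨ (hΨne i j hij)⟩⟩
  · rintro _ ⟨x, hx, rfl⟩
    apply hball
    rw [Metric.mem_ball, hom_apply, dist_eq_norm, add_sub_cancel_right, norm_smul,
      Real.norm_eq_abs, abs_of_pos hc0, hcdef, div_mul_eq_mul_div, div_lt_iff₀ (by linarith)]
    have := hM i x hx
    nlinarith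
  · exact hΨne i j hij (Pool.Agent.Results.MP_28492a_gt.HadwigerCriterion.inv_of_equidec
      (inv_iff.1 hΨ) (equidec_iff.1 hE))

/-- Let `n = 1` or `n = 2`. For every nonempty open set `U` of `ℝⁿ` and every `m` there are
geometric bodies `C 0, …, C (m - 1)` contained in `U` such that any two of them are
equidecomposable with arbitrary pieces, while some invariant (a real valued function which does not
change under isometries and is additive for joins of disjoint bodies) takes `m` different values on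
them. For `i ≠ j` the bodies `C i` and `C j` are not equidecomposable as geometric bodies, and
neither are `k C i + X` and `k C j + Y` for any `k ≥ 1` and any bodies `X`, `Y` which are
equidecomposable as geometric bodies. -/
theorem result : ∀ n : ℕ, n = 1 ∨ n = 2 → ∀ U : Set (Rn n), IsOpen U → U.Nonempty → ∀ m : ℕ,
    ∃ C : Fin m → Set (Rn n), (∀ i, GeometricBody (C i) ∧ C i ⊆ U) ∧
      (∀ i j, EquidecArbitrary (C i) (C j)) ∧
      (∃ Φ : Set (Rn n) → ℝ, IsInvariant Φ ∧ ∀ i j, i ≠ j → Φ (C i) ≠ Φ (C j)) ∧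
      ∀ i j, i ≠ j → ¬ EquidecBodies (C i) (C j) ∧ StablyDifferent (C i) (C j) := by
  rintro n (rfl | rfl) U hU hne m
  · obtain ⟨A, B, hA, hB, h1, h2⟩ :=
      Geo.transfer_lin (OrthonormalBasis.singleton (Fin 1) ℝ) Geo.line_example
    exact of_pair le_rfl hA hB h1 h2 U hU hne m
  · obtain ⟨A, B, hA, hB, h1, h2⟩ :=
      Geo.transfer_lin Complex.orthonormalBasisOneI Geo.plane_example
    exact of_pair one_le_two hA hB h1 h2 U hU hne m

end main

end Pool.Agent.Results.MP_02f2ca_gt.SeparatedFamilies
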